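import Pool.Agent.K4H78.TY.Pattern

/-!
Codegree constructions without tight cycles: four classes of vertices.
-/

set_option autoImplicit false

namespace Pool.Agent.K4H78.TY

open Finset

/-- a function on `ZMod ℓ` with period `k` has period `gcd k ℓ` -/
lemma period_gcd {ℓ k : ℕ} {α : Type} {f : ZMod ℓ → α} (h : ∀ t, f (t + (k : ZMod ℓ)) = f t) (t : ZMod ℓ) :
    f (t + ((Nat.gcd k ℓ : ℕ) : ZMod ℓ)) = f t := by
  have h1 : Function.Periodic f (k : ZMod ℓ) := h
  have h2 := h1.int_mul (Nat.gcdA k ℓ)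
  have h3 : ((Nat.gcdA k ℓ : ℤ) : ZMod ℓ) * (k : ZMod ℓ) = ((Nat.gcd k ℓ : ℕ) : ZMod ℓ) := by
    have h4 := Nat.gcd_eq_gcd_ab k ℓ
    have h5 := congrArg (fun z : ℤ => (z : ZMod ℓ)) h4
    push_cast at h5
    rw [h5, ZMod.natCast_self, zero_mul, add_zero, mul_comm]
  rw [h3] at h2
  exact h2 t

/-- sums over windows of a function with period `g` -/
lemma window_sum {ℓ g : ℕ} {f : ZMod ℓ → ℤ} (h : ∀ t, f (t + (g : ZMod ℓ)) = f t) (t : ZMod ℓ) (m : ℕ) :
    ∑ j ∈ range (g * m), f (t + (j : ZMod ℓ)) = m * ∑ j ∈ range g, f (t + (j : ZMod ℓ)) := by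
  have h1 : ∀ (m : ℕ) (s : ZMod ℓ), f (s + ((g * m : ℕ) : ZMod ℓ)) = f s := by
    intro m
    induction m with
    | zero => intro s; simp
    | succ m ih =>
      intro s
      have h2 : s + ((g * (m + 1) : ℕ) : ZMod ℓ) = s + ((g * m : ℕ) : ZMod ℓ) + (g : ZMod ℓ) := by
        push_cast
        ring
      rw [h2, h, ih]
  induction m with
  | zero => simp
  | succ m ih =>
    rw [Nat.mul_succ, Finset.sum_range_add, ih]
    have h2 : ∑ x ∈ range g, f (t + ((g * m + x : ℕ) : ZMod ℓ)) =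
        ∑ j ∈ range g, f (t + (j : ZMod ℓ)) := by
      refine Finset.sum_congr rfl fun x _ => ?_
      rw [← h1 m (t + (x : ZMod ℓ))]
      congr 1
      push_cast
      ring
    rw [h2]
    push_cast
    ring

/-- the window sum is divisible by every prime factor of `k / gcd k ℓ` -/
lemma dvd_window {ℓ k p : ℕ} (hp : p ∣ k / Nat.gcd k ℓ) {f : ZMod ℓ → ℤ}
    (h : ∀ t, f (t + (k : ZMod ℓ)) = f t) (t : ZMod ℓ) :
    (p : ℤ) ∣ ∑ j ∈ range k, f (t + (j : ZMod ℓ)) := by
  have h1 := window_sum (g := Nat.gcd k ℓ) (period_gcd h) t (k / Nat.gcd k ℓ)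
  rw [Nat.mul_div_cancel' (Nat.gcd_dvd_left k ℓ)] at h1
  rw [h1]
  exact Dvd.dvd.mul_right (by exact_mod_cast hp) _

/-- the window sums of `f` -/
lemma window_step {ℓ : ℕ} (k : ℕ) (f : ZMod ℓ → ℤ) (t : ZMod ℓ) :
    ∑ j ∈ range k, f (t + 1 + (j : ZMod ℓ)) - ∑ j ∈ range k, f (t + (j : ZMod ℓ)) =
      f (t + (k : ZMod ℓ)) - f t := by
  have h1 := Finset.sum_range_succ (fun j : ℕ => f (t + (j : ZMod ℓ))) k
  have h2 := Finset.sum_range_succ' (fun j : ℕ => f (t + (j : ZMod ℓ))) k
  have h3 : ∀ j : ℕ, f (t + ((j + 1 : ℕ) : ZMod ℓ)) = f (t + 1 + (j : ZMod ℓ)) := by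
    intro j
    congr 1
    push_cast
    ring
  simp only [h3] at h2
  simp only [Nat.cast_zero, add_zero] at h2
  linarith

/-- Two functions `a, b : ZMod ℓ → {0, 1}` whose window sums are always in a pattern: impossible. -/
theorem no_closed_walk {ℓ k p : ℕ} (hp : p ∣ k / Nat.gcd k ℓ) (P : Pattern p)
    (a b : ZMod ℓ → ℤ) (ha : ∀ t, a t = 0 ∨ a t = 1) (hb : ∀ t, b t = 0 ∨ b t = 1)
    (hF : ∀ t : ZMod ℓ, P.F (∑ j ∈ range k, a (t + (j : ZMod ℓ))) (∑ j ∈ range k, b (t + (j : ZMod ℓ)))) :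
    False := by
  classical
  set A : ZMod ℓ → ℤ := fun t => ∑ j ∈ range k, a (t + (j : ZMod ℓ)) with hA
  set B : ZMod ℓ → ℤ := fun t => ∑ j ∈ range k, b (t + (j : ZMod ℓ)) with hB
  have hdA : ∀ t, A (t + 1) - A t = a (t + (k : ZMod ℓ)) - a t := fun t => window_step k a t
  have hdB : ∀ t, B (t + 1) - B t = b (t + (k : ZMod ℓ)) - b t := fun t => window_step k b t
  have hadj : ∀ t, P.L (A (t + 1)) (B (t + 1)) = P.L (A t) (B t) ∧
      (P.L (A t) (B t)).1 * (A (t + 1) - A t) + (P.L (A t) (B t)).2 * (B (t + 1) - B t) = 0 := by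
    intro t
    refine P.adj _ _ _ _ (hF t) (hF (t + 1)) ?_ ?_
    · rw [hdA t, abs_le]
      rcases ha t with h | h <;> rcases ha (t + (k : ZMod ℓ)) with h' | h' <;> rw [h, h'] <;> omega
    · rw [hdB t, abs_le]
      rcases hb t with h | h <;> rcases hb (t + (k : ZMod ℓ)) with h' | h' <;> rw [h, h'] <;> omega
  have hconst : ∀ j : ℕ, P.L (A (j : ZMod ℓ)) (B (j : ZMod ℓ)) = P.L (A 0) (B 0) := by
    intro j
    induction j with
    | zero => simp
    | succ j ih =>
      rw [Nat.cast_succ, (hadj j).1, ih]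
  -- the whole cycle
  have hconst' : ∀ t : ZMod ℓ, P.L (A t) (B t) = P.L (A 0) (B 0) := by
    intro t
    rcases Nat.eq_zero_or_pos ℓ with h0 | h0
    · subst h0
      have hdown : ∀ j : ℕ, P.L (A (-(j : ZMod 0))) (B (-(j : ZMod 0))) = P.L (A 0) (B 0) := by
        intro j
        induction j with
        | zero => simp
        | succ j ih =>
          have h1 := (hadj (-((j + 1 : ℕ) : ZMod 0))).1
          have h2 : -((j + 1 : ℕ) : ZMod 0) + 1 = -(j : ZMod 0) := by
            push_cast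
            ring
          rw [h2, ih] at h1
          exact h1.symm
      rcases Int.eq_nat_or_neg t with ⟨j, hj | hj⟩
      · rw [hj]
        exact hconst j
      · rw [hj]
        exact hdown j
    · have : NeZero ℓ := ⟨h0.ne'⟩
      have h1 := hconst t.val
      rwa [ZMod.natCast_zmod_val] at h1
  set x := (P.L (A 0) (B 0)).1 with hx
  set y := (P.L (A 0) (B 0)).2 with hy
  have hper : ∀ t, x * a (t + (k : ZMod ℓ)) + y * b (t + (k : ZMod ℓ)) = x * a t + y * b t := by
    intro t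
    have h1 := (hadj t).2
    rw [hconst' t, hdA t, hdB t] at h1
    linarith
  have h1 := dvd_window hp (f := fun t => x * a t + y * b t) hper 0
  have h2 : ∑ j ∈ range k, (x * a (0 + (j : ZMod ℓ)) + y * b (0 + (j : ZMod ℓ))) = x * A 0 + y * B 0 := by
    rw [Finset.sum_add_distrib, ← Finset.mul_sum, ← Finset.mul_sum]
  rw [h2] at h1
  exact P.nz _ _ (hF 0) h1

/-- first bit of the class of a vertex -/
def bitA (v : ℕ) : ℕ := v % 2

/-- second bit of the class of a vertex -/
def bitB (v : ℕ) : ℕ := v / 2 % 2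

lemma card_class (n : ℕ) (i j : ℕ) (hi : i ≤ 1) (hj : j ≤ 1) :
    n / 4 ≤ (univ.filter (fun v : Fin n => bitA v.val = i ∧ bitB v.val = j)).card := by
  have h1 : ∀ q : Fin (n / 4), 4 * q.val + (i + 2 * j) < n := by
    intro q
    have := q.isLt
    omega
  have h2 : (univ.image (fun q : Fin (n / 4) => (⟨4 * q.val + (i + 2 * j), h1 q⟩ : Fin n))).card =
      n / 4 := by
    rw [Finset.card_image_of_injective, Finset.card_univ, Fintype.card_fin]
    intro q q' h
    have h3 := congrArg Fin.val h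
    simp only at h3
    exact Fin.ext (by omega)
  rw [← h2]
  refine Finset.card_le_card ?_
  intro v hv
  obtain ⟨q, -, rfl⟩ := Finset.mem_image.mp hv
  refine Finset.mem_filter.mpr ⟨Finset.mem_univ _, ?_, ?_⟩
  · show (4 * q.val + (i + 2 * j)) % 2 = i
    omega
  · show (4 * q.val + (i + 2 * j)) / 2 % 2 = j
    omega

/-- the number of the vertices of `e` whose first bit is one -/
def cntA {n : ℕ} (e : Finset (Fin n)) : ℕ := ∑ v ∈ e, bitA v.val

/-- the number of the vertices of `e` whose second bit is one -/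
def cntB {n : ℕ} (e : Finset (Fin n)) : ℕ := ∑ v ∈ e, bitB v.val

/-- **The construction.** -/
theorem exists_graph (k ℓ : ℕ) (hk : 3 ≤ k) (hkl : k + 1 ≤ ℓ) (hdvd : ¬ k ∣ ℓ) (n : ℕ) :
    ∃ H : Finset (Finset (Fin n)), (∀ e ∈ H, e.card = k) ∧
      (¬ ∃ v : ZMod ℓ → Fin n, Function.Injective v ∧
        ∀ i : ZMod ℓ, (range k).image (fun j : ℕ => v (i + (j : ZMod ℓ))) ∈ H) ∧
      ∀ S : Finset (Fin n), S.card = k - 1 →
        n / 4 ≤ (univ.filter (fun v : Fin n => v ∉ S ∧ insert v S ∈ H)).card + (k - 1) := by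
  classical
  have hg : k / Nat.gcd k ℓ ≠ 1 := by
    intro h
    have h1 : Nat.gcd k ℓ = k := by
      have h2 := Nat.div_mul_cancel (Nat.gcd_dvd_left k ℓ)
      rw [h, one_mul] at h2
      exact h2
    exact hdvd (by rw [← h1]; exact Nat.gcd_dvd_right k ℓ)
  obtain ⟨p, hp, hpd⟩ := Nat.exists_prime_and_dvd hg
  obtain ⟨P⟩ := exists_pattern p hp
  refine ⟨univ.filter (fun e : Finset (Fin n) => e.card = k ∧ P.F (cntA e : ℤ) (cntB e : ℤ)), ?_, ?_, ?_⟩
  · intro e he
    exact (Finset.mem_filter.mp he).2.1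
  · rintro ⟨v, hv, hE⟩
    have hinj : ∀ i : ZMod ℓ, Set.InjOn (fun j : ℕ => v (i + (j : ZMod ℓ))) (range k : Finset ℕ) := by
      intro i j hj j' hj' h
      have h1 : i + (j : ZMod ℓ) = i + (j' : ZMod ℓ) := hv h
      have h2 : (j : ZMod ℓ) = (j' : ZMod ℓ) := add_left_cancel h1
      rw [Finset.coe_range, Set.mem_Iio] at hj hj'
      rw [ZMod.natCast_eq_natCast_iff] at h2
      exact Nat.ModEq.eq_of_lt_of_lt h2 (by omega) (by omega)
    refine no_closed_walk hpd P (fun t => (bitA (v t).val : ℤ)) (fun t => (bitB (v t).val : ℤ)) ?_ ?_ ?_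
    · intro t
      have : bitA (v t).val < 2 := Nat.mod_lt _ (by norm_num)
      omega
    · intro t
      have : bitB (v t).val < 2 := Nat.mod_lt _ (by norm_num)
      omega
    · intro t
      have h1 := (Finset.mem_filter.mp (hE t)).2.2
      unfold cntA cntB at h1
      rw [Finset.sum_image (fun j hj j' hj' h => hinj t hj hj' h),
        Finset.sum_image (fun j hj j' hj' h => hinj t hj hj' h)] at h1
      push_cast at h1
      exact h1
  · intro S hS
    have key : ∃ i j : ℕ, i ≤ 1 ∧ j ≤ 1 ∧ P.F ((cntA S : ℤ) + i) ((cntB S : ℤ) + j) := by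
      rcases P.cov (cntA S : ℤ) (cntB S : ℤ) with h | h | h | h
      · exact ⟨0, 0, by omega, by omega, by simpa using h⟩
      · exact ⟨1, 0, by omega, by omega, by simpa using h⟩
      · exact ⟨0, 1, by omega, by omega, by simpa using h⟩
      · exact ⟨1, 1, by omega, by omega, by simpa using h⟩
    obtain ⟨i, j, hi, hj, hF⟩ := key
    have h1 := card_class n i j hi hj
    have h2 : univ.filter (fun v : Fin n => bitA v.val = i ∧ bitB v.val = j) ⊆
        univ.filter (fun v : Fin n => v ∉ S ∧ insert v S ∈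
          univ.filter (fun e : Finset (Fin n) => e.card = k ∧ P.F (cntA e : ℤ) (cntB e : ℤ))) ∪ S := by
      intro v hv
      obtain ⟨-, hv1, hv2⟩ := Finset.mem_filter.mp hv
      by_cases hvS : v ∈ S
      · exact Finset.mem_union_right _ hvS
      · refine Finset.mem_union_left _ (Finset.mem_filter.mpr ⟨Finset.mem_univ _, hvS,
          Finset.mem_filter.mpr ⟨Finset.mem_univ _, ?_, ?_⟩⟩)
        · rw [Finset.card_insert_of_notMem hvS, hS]
          omega
        · have e1 : cntA (insert v S) = cntA S + i := by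
            unfold cntA
            rw [Finset.sum_insert hvS, hv1, add_comm]
          have e2 : cntB (insert v S) = cntB S + j := by
            unfold cntB
            rw [Finset.sum_insert hvS, hv2, add_comm]
          rw [e1, e2]
          push_cast
          exact hF
    have h3 := (Finset.card_le_card h2).trans (Finset.card_union_le _ _)
    rw [hS] at h3
    omega

end Pool.Agent.K4H78.TY
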