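import Mathlib

/-!
Patterns in the plane for codegree constructions without tight cycles.
-/

set_option autoImplicit false

namespace Pool.Agent.K4H78.TY

/-- A set `F` of points of the plane together with a linear form `(a, b)` at each of its points. -/
structure Pattern (p : ℕ) where
  /-- the points -/
  F : ℤ → ℤ → Prop
  /-- the linear form -/
  L : ℤ → ℤ → ℤ × ℤ
  cov : ∀ U V, F U V ∨ F (U + 1) V ∨ F U (V + 1) ∨ F (U + 1) (V + 1)
  adj : ∀ U V U' V', F U V → F U' V' → |U' - U| ≤ 1 → |V' - V| ≤ 1 →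
    L U' V' = L U V ∧ (L U V).1 * (U' - U) + (L U V).2 * (V' - V) = 0
  nz : ∀ U V, F U V → ¬ ((p : ℤ) ∣ (L U V).1 * U + (L U V).2 * V)

/-- the linear forms, by number -/
def form (c : ℕ) : ℤ × ℤ :=
  if c = 1 then (0, 1) else if c = 2 then (1, 0) else if c = 3 then (1, -1) else (1, 1)

lemma abs_cases {x : ℤ} (h : |x| ≤ 1) : x = -1 ∨ x = 0 ∨ x = 1 := by
  rw [abs_le] at h
  omega

/-- A pattern from states of the coordinates. -/
theorem exists_of_states {S : Type} (p : ℕ) (st : ℤ → S) (nxt : S → S → Prop)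
    (hnxt : ∀ u, nxt (st u) (st (u + 1))) (T : S → S → ℕ)
    (h1 : ∀ s s' r r', nxt s s' → nxt r r' → T s r ≠ 0 ∨ T s' r ≠ 0 ∨ T s r' ≠ 0 ∨ T s' r' ≠ 0)
    (h2 : ∀ s r r', nxt r r' → T s r ≠ 0 → T s r' ≠ 0 → T s r' = T s r ∧ (form (T s r)).2 = 0)
    (h3 : ∀ s s' r, nxt s s' → T s r ≠ 0 → T s' r ≠ 0 → T s' r = T s r ∧ (form (T s r)).1 = 0)
    (h4' : ∀ s s' r r', nxt s s' → nxt r r' →
      T s r = 0 ∨ T s' r' = 0 ∨ (T s' r' = T s r ∧ T s r = 3))
    (h5' : ∀ s s' r r', nxt s s' → nxt r r' →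
      T s' r = 0 ∨ T s r' = 0 ∨ (T s r' = T s' r ∧ T s' r = 4))
    (h6 : ∀ U V, T (st U) (st V) ≠ 0 →
      ¬ ((p : ℤ) ∣ (form (T (st U) (st V))).1 * U + (form (T (st U) (st V))).2 * V)) :
    Nonempty (Pattern p) := by
  have h4 : ∀ s s' r r', nxt s s' → nxt r r' → T s r ≠ 0 → T s' r' ≠ 0 →
      T s' r' = T s r ∧ (form (T s r)).1 + (form (T s r)).2 = 0 := by
    intro s s' r r' e1 e2 e3 e4
    rcases h4' s s' r r' e1 e2 with e5 | e5 | ⟨e5, e6⟩
    · exact absurd e5 e3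
    · exact absurd e5 e4
    · refine ⟨e5, ?_⟩
      rw [e6]
      rfl
  have h5 : ∀ s s' r r', nxt s s' → nxt r r' → T s' r ≠ 0 → T s r' ≠ 0 →
      T s r' = T s' r ∧ (form (T s' r)).1 = (form (T s' r)).2 := by
    intro s s' r r' e1 e2 e3 e4
    rcases h5' s s' r r' e1 e2 with e5 | e5 | ⟨e5, e6⟩
    · exact absurd e5 e3
    · exact absurd e5 e4
    · refine ⟨e5, ?_⟩
      rw [e6]
      rfl
  refine ⟨⟨fun U V => T (st U) (st V) ≠ 0, fun U V => form (T (st U) (st V)), ?_, ?_, h6⟩⟩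
  · intro U V
    exact h1 _ _ _ _ (hnxt U) (hnxt V)
  · intro U V U' V' hF hF' hU hV
    rcases abs_cases hU with hu | hu | hu <;> rcases abs_cases hV with hv | hv | hv
    · obtain rfl : U = U' + 1 := by omega
      obtain rfl : V = V' + 1 := by omega
      obtain ⟨e1, e2⟩ := h4 _ _ _ _ (hnxt U') (hnxt V') hF' hF
      rw [e1]
      refine ⟨rfl, ?_⟩
      rw [hu, hv]
      linarith
    · obtain rfl : U = U' + 1 := by omega
      obtain rfl : V = V' := by omega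
      obtain ⟨e1, e2⟩ := h3 _ _ _ (hnxt U') hF' hF
      rw [e1]
      refine ⟨rfl, ?_⟩
      rw [hv, e2]
      ring
    · obtain rfl : U = U' + 1 := by omega
      obtain rfl : V' = V + 1 := by omega
      obtain ⟨e1, e2⟩ := h5 _ _ _ _ (hnxt U') (hnxt V) hF hF'
      rw [e1]
      refine ⟨rfl, ?_⟩
      rw [hu, hv]
      linarith
    · obtain rfl : U = U' := by omega
      obtain rfl : V = V' + 1 := by omega
      obtain ⟨e1, e2⟩ := h2 _ _ _ (hnxt V') hF' hF
      rw [e1]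
      refine ⟨rfl, ?_⟩
      rw [hu, e2]
      ring
    · obtain rfl : U = U' := by omega
      obtain rfl : V = V' := by omega
      simp
    · obtain rfl : U = U' := by omega
      obtain rfl : V' = V + 1 := by omega
      obtain ⟨e1, e2⟩ := h2 _ _ _ (hnxt V) hF hF'
      rw [e1]
      refine ⟨rfl, ?_⟩
      rw [hu, e2]
      ring
    · obtain rfl : U' = U + 1 := by omega
      obtain rfl : V = V' + 1 := by omega
      obtain ⟨e1, e2⟩ := h5 _ _ _ _ (hnxt U) (hnxt V') hF' hF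
      rw [e1]
      refine ⟨rfl, ?_⟩
      rw [hu, hv]
      linarith
    · obtain rfl : U' = U + 1 := by omega
      obtain rfl : V = V' := by omega
      obtain ⟨e1, e2⟩ := h3 _ _ _ (hnxt U) hF hF'
      rw [e1]
      refine ⟨rfl, ?_⟩
      rw [hv, e2]
      ring
    · obtain rfl : U' = U + 1 := by omega
      obtain rfl : V' = V + 1 := by omega
      obtain ⟨e1, e2⟩ := h4 _ _ _ _ (hnxt U) (hnxt V) hF hF'
      rw [e1]
      refine ⟨rfl, ?_⟩
      rw [hu, hv]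
      linarith

/-- table modulo 10 for `p = 5` -/
def T5 : Fin 10 → Fin 10 → ℕ := ![
  ![0, 1, 0, 0, 0, 0, 0, 0, 0, 0],
  ![0, 0, 0, 1, 0, 2, 2, 2, 0, 1],
  ![0, 2, 0, 1, 0, 0, 0, 0, 0, 1],
  ![0, 0, 0, 0, 0, 2, 2, 2, 0, 0],
  ![0, 2, 0, 3, 0, 0, 0, 0, 0, 4],
  ![0, 0, 0, 0, 3, 0, 1, 0, 4, 0],
  ![4, 0, 3, 0, 0, 0, 0, 0, 0, 0],
  ![0, 0, 0, 3, 0, 2, 0, 2, 0, 4],
  ![0, 1, 0, 0, 0, 0, 0, 0, 0, 0],
  ![0, 1, 0, 2, 2, 2, 2, 2, 2, 2]]

/-- table of the states for `p ≥ 7` -/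
def T7 : Fin 13 → Fin 13 → ℕ := ![
  ![0, 1, 0, 1, 0, 0, 0, 0, 0, 0, 0, 0, 0],
  ![0, 0, 0, 0, 0, 2, 2, 0, 1, 0, 2, 2, 0],
  ![0, 2, 0, 3, 0, 0, 0, 0, 1, 0, 0, 0, 0],
  ![0, 0, 0, 0, 3, 0, 2, 0, 0, 0, 2, 2, 0],
  ![0, 2, 2, 0, 0, 0, 0, 0, 3, 0, 0, 0, 0],
  ![0, 0, 0, 0, 4, 0, 3, 0, 0, 3, 0, 1, 0],
  ![0, 1, 0, 4, 0, 0, 0, 3, 0, 0, 0, 0, 0],
  ![0, 1, 0, 0, 0, 2, 0, 0, 0, 1, 0, 2, 0],
  ![0, 1, 0, 1, 0, 0, 0, 1, 0, 1, 0, 0, 0],
  ![0, 1, 0, 1, 0, 2, 0, 1, 0, 1, 0, 2, 0],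
  ![0, 1, 0, 1, 0, 0, 0, 1, 0, 1, 0, 0, 0],
  ![0, 1, 0, 1, 0, 2, 0, 1, 0, 1, 0, 2, 0],
  ![0, 0, 0, 0, 0, 0, 0, 0, 0, 0, 0, 0, 0]]

/-- transitions of the states for `p ≥ 7` -/
def N7 (s s' : Fin 13) : Prop :=
  s'.val = s.val + 1 ∧ s.val ≠ 12 ∨ (s.val = 11 ∧ s'.val = 0) ∨ (s.val = 12 ∧ s'.val = 11)

instance : DecidableRel N7 := fun _ _ => by unfold N7; infer_instance

theorem pattern_two : Nonempty (Pattern 2) := by
  refine exists_of_states 2 (fun u : ℤ => (u : ZMod 2)) (fun a b => b = a + 1) ?_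
    (fun a _ => if a = 1 then 2 else 0) ?_ ?_ ?_ ?_ ?_ ?_
  · intro u
    push_cast
    rfl
  · decide
  · decide
  · decide
  · decide
  · decide
  · intro U V h
    have h1 : (U : ZMod 2) = 1 := by
      by_contra h2
      exact h (if_neg h2)
    intro h3
    simp only [h1, if_true, form] at h3
    norm_num at h3
    have h4 : (U : ZMod 2) = 0 := (ZMod.intCast_zmod_eq_zero_iff_dvd U 2).mpr (by push_cast; omega)
    rw [h4] at h1
    exact absurd h1 (by decide)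

theorem pattern_three : Nonempty (Pattern 3) := by
  refine ⟨⟨fun U V => (U + V) % 3 = 1, fun _ _ => (1, 1), ?_, ?_, ?_⟩⟩
  · intro U V
    omega
  · intro U V U' V' h h' hU hV
    refine ⟨rfl, ?_⟩
    rw [abs_le] at hU hV
    simp only
    omega
  · intro U V h
    simp only
    omega

theorem pattern_five : Nonempty (Pattern 5) := by
  refine exists_of_states 5 (fun u : ℤ => ((u : ZMod 10) : Fin 10)) (fun a b => b = a + 1) ?_
    T5 ?_ ?_ ?_ ?_ ?_ ?_
  · intro u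
    exact (Int.cast_add u 1 : ((u + 1 : ℤ) : ZMod 10) = (u : ZMod 10) + ((1 : ℤ) : ZMod 10)).trans
      (by rw [Int.cast_one])
  · decide +kernel
  · decide +kernel
  · decide +kernel
  · decide +kernel
  · decide +kernel
  · intro U V h h5
    have key : ∀ a b : ZMod 10, T5 a b ≠ 0 →
        ¬ (2 : ZMod 10) * (((form (T5 a b)).1 : ZMod 10) * a + ((form (T5 a b)).2 : ZMod 10) * b) = 0 := by
      decide +kernel
    apply key (U : ZMod 10) (V : ZMod 10) h
    obtain ⟨c, hc⟩ := h5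
    have h6 : (2 : ℤ) * ((form (T5 (U : ZMod 10) (V : ZMod 10))).1 * U +
        (form (T5 (U : ZMod 10) (V : ZMod 10))).2 * V) = 10 * c := by
      rw [hc]
      push_cast
      ring
    have h7 := congrArg (fun z : ℤ => (z : ZMod 10)) h6
    push_cast at h7
    rw [h7]
    have h8 : (10 : ZMod 10) = 0 := by decide
    rw [h8, zero_mul]

/-- states of the coordinates for `p ≥ 7` -/
def st7 (p : ℕ) (u : ℤ) : Fin 13 :=
  if h : |u % (2 * p) - p| ≤ 5 then
    ⟨(u % (2 * p) - p + 5).toNat, by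
      rw [abs_le] at h
      omega⟩
  else if u % 2 = 1 then 11 else 12

lemma st7_in {p : ℕ} {u : ℤ} (h : |u % (2 * p) - p| ≤ 5) :
    ((st7 p u).val : ℤ) = u % (2 * p) - p + 5 := by
  unfold st7
  rw [dif_pos h]
  rw [abs_le] at h
  simp only
  omega

lemma st7_out {p : ℕ} {u : ℤ} (h : ¬ |u % (2 * p) - p| ≤ 5) :
    (u % 2 = 1 ∧ (st7 p u).val = 11) ∨ (u % 2 = 0 ∧ (st7 p u).val = 12) := by
  unfold st7
  rw [dif_neg h]
  by_cases h2 : u % 2 = 1
  · rw [if_pos h2]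
    exact Or.inl ⟨h2, rfl⟩
  · rw [if_neg h2]
    exact Or.inr ⟨by omega, rfl⟩

lemma mod_two {p : ℕ} (u : ℤ) : u % (2 * p) % 2 = u % 2 :=
  Int.emod_emod_of_dvd u ⟨(p : ℤ), rfl⟩

lemma mod_succ {p : ℕ} (hp : 0 < p) (u : ℤ) :
    (u + 1) % (2 * p) = u % (2 * p) + 1 ∨ (u % (2 * p) = 2 * p - 1 ∧ (u + 1) % (2 * p) = 0) := by
  have h0 : (0 : ℤ) < 2 * p := by
    have : (0 : ℤ) < p := by exact_mod_cast hp
    linarith
  have h1 := Int.emod_nonneg u h0.ne'
  have h2 := Int.emod_lt_of_pos u h0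
  have h3 : (u + 1) % (2 * p) = (u % (2 * p) + 1) % (2 * p) := (Int.emod_add_emod u (2 * p) 1).symm
  by_cases h4 : u % (2 * p) + 1 < 2 * p
  · left
    rw [h3, Int.emod_eq_of_lt (by omega) h4]
  · right
    have h5 : u % (2 * p) = 2 * p - 1 := by omega
    refine ⟨h5, ?_⟩
    rw [h3, h5, sub_add_cancel, Int.emod_self]

lemma st7_next {p : ℕ} (hp : 7 ≤ p) (hodd : p % 2 = 1) (u : ℤ) : N7 (st7 p u) (st7 p (u + 1)) := by
  have h1 := mod_two (p := p) u
  have h2 := mod_two (p := p) (u + 1)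
  have h3 := mod_succ (p := p) (by omega) u
  have h0 : (0 : ℤ) < 2 * p := by omega
  have h4 := Int.emod_nonneg u h0.ne'
  have h5 := Int.emod_lt_of_pos u h0
  unfold N7
  generalize hw : u % (2 * p) = w at *
  generalize hw' : (u + 1) % (2 * p) = w' at *
  by_cases c1 : |w - p| ≤ 5 <;> by_cases c2 : |w' - p| ≤ 5
  · have e1 := st7_in (p := p) (u := u) (by rw [hw]; exact c1)
    have e2 := st7_in (p := p) (u := u + 1) (by rw [hw']; exact c2)
    rw [hw] at e1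
    rw [hw'] at e2
    rw [abs_le] at c1 c2
    omega
  · have e1 := st7_in (p := p) (u := u) (by rw [hw]; exact c1)
    have e2 := st7_out (p := p) (u := u + 1) (by rw [hw']; exact c2)
    rw [hw] at e1
    rw [abs_le] at c1
    rw [not_le, lt_abs] at c2
    omega
  · have e1 := st7_out (p := p) (u := u) (by rw [hw]; exact c1)
    have e2 := st7_in (p := p) (u := u + 1) (by rw [hw']; exact c2)
    rw [hw'] at e2
    rw [abs_le] at c2
    rw [not_le, lt_abs] at c1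
    omega
  · have e1 := st7_out (p := p) (u := u) (by rw [hw]; exact c1)
    have e2 := st7_out (p := p) (u := u + 1) (by rw [hw']; exact c2)
    rw [not_le, lt_abs] at c1 c2
    omega

lemma st7_dvd {p : ℕ} (hp : 7 ≤ p) {u : ℤ} (h : (p : ℤ) ∣ u) :
    (st7 p u).val = 5 ∨ (st7 p u).val = 12 := by
  obtain ⟨c, rfl⟩ := h
  have h0 : (0 : ℤ) < 2 * p := by omega
  have h1 : ((p : ℤ) * c) % (2 * p) = p * (c % 2) := by
    rw [mul_comm 2 (p : ℤ), Int.mul_emod_mul_of_pos _ _ (by omega : (0 : ℤ) < p)]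
  rcases Int.emod_two_eq_zero_or_one c with h2 | h2
  · right
    rw [h2, mul_zero] at h1
    have h3 := st7_out (p := p) (u := (p : ℤ) * c) (by
      rw [h1, not_le, lt_abs]
      omega)
    have h4 := mod_two (p := p) ((p : ℤ) * c)
    rw [h1] at h4
    omega
  · left
    rw [h2, mul_one] at h1
    have h3 := st7_in (p := p) (u := (p : ℤ) * c) (by
      rw [h1, sub_self, abs_zero]
      norm_num)
    rw [h1] at h3
    omega

lemma st7_core {p : ℕ} {u : ℤ} (h : (st7 p u).val ≤ 10) :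
    ∃ c : ℤ, u = (p : ℤ) * (2 * c + 1) + (((st7 p u).val : ℤ) - 5) := by
  have h1 : |u % (2 * p) - p| ≤ 5 := by
    by_contra h2
    have := st7_out (p := p) (u := u) h2
    omega
  have h2 := st7_in h1
  refine ⟨u / (2 * p), ?_⟩
  rw [h2]
  have h3 := Int.mul_ediv_add_emod u (2 * p)
  linarith

lemma small_dvd {p : ℕ} (hp : 7 ≤ p) {x : ℤ} (h : (p : ℤ) ∣ x) (h1 : x < 7) (h2 : -7 < x) : x = 0 := by
  obtain ⟨c, rfl⟩ := h
  rcases lt_trichotomy c 0 with h3 | h3 | h3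
  · nlinarith
  · rw [h3, mul_zero]
  · nlinarith

theorem pattern_seven (p : ℕ) (hp : 7 ≤ p) (hodd : p % 2 = 1) : Nonempty (Pattern p) := by
  refine exists_of_states p (st7 p) N7 (st7_next hp hodd) T7 ?_ ?_ ?_ ?_ ?_ ?_
  · decide +kernel
  · decide +kernel
  · decide +kernel
  · decide +kernel
  · decide +kernel
  · intro U V h h5
    have key : ∀ a b : Fin 13, T7 a b = 0 ∨ (T7 a b = 1 ∧ b.val ≠ 5 ∧ b.val ≠ 12) ∨
        (T7 a b = 2 ∧ a.val ≠ 5 ∧ a.val ≠ 12) ∨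
        (T7 a b = 3 ∧ a.val ≤ 10 ∧ b.val ≤ 10 ∧ a.val ≠ b.val ∧ a.val < b.val + 7 ∧
          b.val < a.val + 7) ∨
        (T7 a b = 4 ∧ a.val ≤ 10 ∧ b.val ≤ 10 ∧ a.val + b.val ≠ 10 ∧ a.val + b.val < 17 ∧
          3 < a.val + b.val) := by
      decide +kernel
    rcases key (st7 p U) (st7 p V) with h1 | ⟨h1, h2, h3⟩ | ⟨h1, h2, h3⟩ |
      ⟨h1, h2, h3, h4, h6, h7⟩ | ⟨h1, h2, h3, h4, h6, h7⟩
    · exact h h1
    · rw [h1] at h5
      simp only [form, if_true, zero_mul, zero_add, one_mul] at h5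
      rcases st7_dvd hp h5 with h8 | h8
      · exact h2 h8
      · exact h3 h8
    · rw [h1] at h5
      simp only [form, if_true, zero_mul, add_zero, one_mul, OfNat.ofNat_ne_one, if_false] at h5
      rcases st7_dvd hp h5 with h8 | h8
      · exact h2 h8
      · exact h3 h8
    · rw [h1] at h5
      obtain ⟨c, hc⟩ := st7_core (p := p) (u := U) h2
      obtain ⟨d, hd⟩ := st7_core (p := p) (u := V) h3
      have e1 : (form 3).1 * U + (form 3).2 * V = U - V := by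
        show (1 : ℤ) * U + (-1) * V = U - V
        ring
      rw [e1] at h5
      have h8 : (p : ℤ) ∣ ((st7 p U).val : ℤ) - ((st7 p V).val : ℤ) := by
        have h9 : ((st7 p U).val : ℤ) - ((st7 p V).val : ℤ) =
            (U - V) - (p : ℤ) * (2 * (c - d)) := by
          linear_combination hd - hc
        rw [h9]
        exact dvd_sub h5 (dvd_mul_right _ _)
      have h9 := small_dvd hp h8 (by omega) (by omega)
      omega
    · rw [h1] at h5
      obtain ⟨c, hc⟩ := st7_core (p := p) (u := U) h2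
      obtain ⟨d, hd⟩ := st7_core (p := p) (u := V) h3
      have e1 : (form 4).1 * U + (form 4).2 * V = U + V := by
        show (1 : ℤ) * U + 1 * V = U + V
        ring
      rw [e1] at h5
      have h8 : (p : ℤ) ∣ ((st7 p U).val : ℤ) + ((st7 p V).val : ℤ) - 10 := by
        have h9 : ((st7 p U).val : ℤ) + ((st7 p V).val : ℤ) - 10 =
            (U + V) - (p : ℤ) * (2 * (c + d + 1)) := by
          linear_combination -hd - hc
        rw [h9]
        exact dvd_sub h5 (dvd_mul_right _ _)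
      have h9 := small_dvd hp h8 (by omega) (by omega)
      omega

/-- There is a pattern for every prime number. -/
theorem exists_pattern (p : ℕ) (hp : p.Prime) : Nonempty (Pattern p) := by
  rcases hp.eq_two_or_odd with rfl | hodd
  · exact pattern_two
  by_cases h3 : p = 3
  · subst h3
    exact pattern_three
  by_cases h5 : p = 5
  · subst h5
    exact pattern_five
  · refine pattern_seven p ?_ hodd
    have := hp.two_le
    omega

end Pool.Agent.K4H78.TY
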